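import Pool.Agent.H49.MP.WE2

/-!
# Weakly étale schemes over algebraically closed fields, local schemes
Module E1 of MP_657af9_ag (helper7).
-/

open CategoryTheory AlgebraicGeometry Limits TopologicalSpace Opposite

noncomputable section

namespace Pool.Agent.H7.MP

/-- A weakly étale algebra over a field which is a local ring is a field, and if the base field
is algebraically closed it is equal to the base field. -/
lemma bijective_of_weaklyEtale_local (k A : Type) [Field k] [IsAlgClosed k] [CommRing A]
    [Algebra k A] [IsLocalRing A] [Algebra.WeaklyEtale k A] :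
    Function.Bijective (algebraMap k A) :=
  Pool.Agent.H49.MP.bijective_of_weaklyEtale_local k A

/-- The canonical morphism `Spec O_{W,w} ⟶ W` is weakly étale. -/
instance weaklyEtale_fromSpecStalk (W : Scheme.{0}) (w : W) :
    WeaklyEtale (W.fromSpecStalk w) :=
  Pool.Agent.H49.MP.weaklyEtale_fromSpecStalk W w

/-- A non-empty weakly étale scheme over an algebraically closed field has a section. -/
theorem exists_section_of_weaklyEtale {k : Type} [Field k] [IsAlgClosed k] {V : Scheme.{0}}
    (f : V ⟶ Spec (CommRingCat.of k)) [WeaklyEtale f] (v : V) :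
    ∃ s : Spec (CommRingCat.of k) ⟶ V, s ≫ f = 𝟙 _ ∧ ∀ x, s x = v :=
  Pool.Agent.H49.MP.exists_section_of_weaklyEtale f v

/-- covering sieves of the pro-étale topology are jointly surjective -/
theorem exists_of_mem_proetale {U : Scheme.{0}} {S : Sieve U} (hS : S ∈ Scheme.proetaleTopology U)
    (u : U) : ∃ (V : Scheme.{0}) (f : V ⟶ U) (v : V), S.arrows f ∧ WeaklyEtale f ∧ f v = u := by
  rw [Scheme.proetaleTopology, Precoverage.mem_toGrothendieck_iff_of_isStableUnderComposition] at hS
  obtain ⟨R, hR, hle⟩ := hS
  have hR' : R ∈ Scheme.precoverage @WeaklyEtale U :=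
    Scheme.propQCPrecoverage_le_precoverage _ hR
  obtain ⟨V, f, hf, v, hv⟩ := (Presieve.mem_comap_jointlySurjectivePrecoverage_iff _).1 hR'.1 u
  exact ⟨V, f, v, hle _ _ hf, hR'.2 hf, hv⟩

/-- Every covering sieve of the spectrum of an algebraically closed field is trivial. -/
theorem mem_proetale_split {k : Type} [Field k] [IsAlgClosed k]
    (S : Sieve (Spec (CommRingCat.of k))) (hS : S ∈ Scheme.proetaleTopology _) :
    S.arrows (𝟙 _) := by
  obtain ⟨V, f, v, hf, hwe, -⟩ := exists_of_mem_proetale hS
    (IsLocalRing.closedPoint k : PrimeSpectrum k)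
  obtain ⟨s, hs, -⟩ := exists_section_of_weaklyEtale f v
  rw [← hs]
  exact S.downward_closed hf s

/-- A continuous function from a local scheme to a Hausdorff space is constant. -/
lemma const_of_local {R : CommRingCat.{0}} [IsLocalRing R] {E : Type} [TopologicalSpace E]
    [T1Space E] (f : C(Spec R, E)) (x y : Spec R) : f x = f y := by
  have h : ∀ z : Spec R, f z = f (IsLocalRing.closedPoint R) := fun z =>
    ((IsLocalRing.specializes_closedPoint z).map f.continuous).eq
  rw [h x, h y]

/-- A geometric point of `W` lifts to a geometric point of `Spec O_{W,w}`. -/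
lemma exists_lift_fromSpecStalk {k : Type} [Field k] {W : Scheme.{0}}
    (e : Spec (CommRingCat.of k) ⟶ W) (x : Spec (CommRingCat.of k)) :
    ∃ e' : Spec (CommRingCat.of k) ⟶ Spec (W.presheaf.stalk (e x)),
      e' ≫ W.fromSpecStalk (e x) = e := by
  have hx : x = IsLocalRing.closedPoint k :=
    (inferInstance : Subsingleton (PrimeSpectrum k)).elim _ _
  subst hx
  exact ⟨_, Scheme.Spec_stalkClosedPointTo_fromSpecStalk e⟩

end Pool.Agent.H7.MP
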