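import Mathlib

open CategoryTheory Limits Opposite

noncomputable section

namespace Pool.Agent.H7.MP

universe v

variable {C : Type v} [SmallCategory.{v} C] {J : GrothendieckTopology C}

section pre

variable (R : Cᵒᵖ ⥤ RingCat.{v})

instance hasExact_pre (K : Type v) [SmallCategory K] [IsFiltered K] :
    HasExactColimitsOfShape K (PresheafOfModules.{v} R) := by
  have : ReflectsFiniteLimits (PresheafOfModules.toPresheaf R) := inferInstance
  exact HasExactColimitsOfShape.domain_of_functor K (PresheafOfModules.toPresheaf R)

end pre

variable (R : Sheaf J RingCat.{v}) [HasSheafify J AddCommGrpCat.{v}]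
  [J.WEqualsLocallyBijective AddCommGrpCat.{v}]

instance hasExact_sheaf (K : Type v) [SmallCategory K] [IsFiltered K] :
    HasExactColimitsOfShape K (SheafOfModules.{v} R) :=
  (PresheafOfModules.sheafificationAdjunction (𝟙 R.obj)).hasExactColimitsOfShape K

instance ab5_sheaf : AB5OfSize.{v, v} (SheafOfModules.{v} R) where
  ofShape K _ _ := inferInstance

/-- the free sheaf of modules on a representable presheaf -/
def freeY (X : C) : SheafOfModules.{v} R :=
  (PresheafOfModules.sheafification (𝟙 R.obj)).obj
    ((PresheafOfModules.free R.obj).obj (yoneda.obj X))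

lemma isSeparating_freeY : ObjectProperty.IsSeparating (.ofObj (freeY R)) := by
  intro F G f g hfg
  refine (SheafOfModules.forget R ⋙
    PresheafOfModules.restrictScalars (𝟙 R.obj)).map_injective ?_
  refine PresheafOfModules.freeYoneda.isSeparating R.obj _ _ ?_
  rintro _ ⟨X⟩ a
  let adj := PresheafOfModules.sheafificationAdjunction (𝟙 R.obj)
  apply (adj.homEquiv _ _).symm.injective
  have h := hfg _ (ObjectProperty.ofObj_apply _ X) ((adj.homEquiv _ _).symm a)
  exact (adj.homEquiv_naturality_right_symm a f).trans
    (h.trans (adj.homEquiv_naturality_right_symm a g).symm)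

instance hasSeparator_sheaf : HasSeparator (SheafOfModules.{v} R) where
  hasSeparator := ⟨_, (isSeparating_freeY R).isSeparator_coproduct⟩

instance : IsGrothendieckAbelian.{v} (SheafOfModules.{v} R) where

example : EnoughInjectives (SheafOfModules.{v} R) := inferInstance

end Pool.Agent.H7.MP
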