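import Mathlib

/-!
# The local field `ℚ_p`, its absolute Galois group and the residue field of `ℚ̄_p`
Module LFA of MP_657af9_ag (helper7), proved by helper58.
-/

open scoped NNReal

noncomputable section

namespace Pool.Agent.H7.MP

section

variable (p : ℕ) [Fact p.Prime]

/-- The absolute Galois group of `ℚ_p`, with the Krull topology. -/
abbrev Gal : Type := PadicAlgCl p ≃ₐ[ℚ_[p]] PadicAlgCl p

/-- The ring of integers of the algebraic closure of `ℚ_p`. -/
def OO : ValuationSubring (PadicAlgCl p) := (Valued.v (R := PadicAlgCl p)).valuationSubring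

lemma mem_OO (x : PadicAlgCl p) : x ∈ OO p ↔ ‖x‖ ≤ 1 := by
  change Valued.v x ≤ 1 ↔ _
  rw [PadicAlgCl.valuation_def, ← NNReal.coe_le_coe]
  simp

lemma norm_gal (g : Gal p) (x : PadicAlgCl p) : ‖g x‖ = ‖x‖ := by
  rw [← PadicAlgCl.spectralNorm_eq, ← PadicAlgCl.spectralNorm_eq]
  exact (spectralNorm_eq_of_equiv g x).symm

/-- The Galois action on the integers. -/
instance : MulSemiringAction (Gal p) (OO p) where
  smul g x := ⟨g x.1, by rw [mem_OO, norm_gal, ← mem_OO]; exact x.2⟩
  one_smul x := rfl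
  mul_smul g h x := rfl
  smul_zero g := by ext; exact map_zero g
  smul_add g x y := by ext; exact map_add g _ _
  smul_one g := by ext; exact map_one g
  smul_mul g x y := by ext; exact map_mul g _ _

@[simp] lemma coe_smul_OO (g : Gal p) (x : OO p) : ((g • x : OO p) : PadicAlgCl p) = g x := rfl

/-- The residue field of the ring of integers of the algebraic closure of `ℚ_p`; the Galois
group acts on it (Mathlib instance). -/
abbrev Kbar : Type := IsLocalRing.ResidueField (OO p)

lemma smul_residue (g : Gal p) (x : OO p) :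
    g • (IsLocalRing.residue (OO p) x) = IsLocalRing.residue (OO p) (g • x) :=
  (IsLocalRing.ResidueField.residue_smul _ g x).symm

/-- units of the ring of integers -/
lemma isUnit_OO (x : OO p) : IsUnit x ↔ ‖(x : PadicAlgCl p)‖ = 1 := by
  constructor
  · intro h
    obtain ⟨y, hy⟩ := h.exists_right_inv
    have h1 : (x : PadicAlgCl p) * y = 1 := congrArg Subtype.val hy
    have h2 := congrArg norm h1
    rw [norm_mul, norm_one] at h2
    have hx := (mem_OO p _).1 x.2
    have hy := (mem_OO p _).1 y.2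
    have hx0 := norm_nonneg (x : PadicAlgCl p)
    have hy0 := norm_nonneg (y : PadicAlgCl p)
    nlinarith
  · intro h
    have hx0 : (x : PadicAlgCl p) ≠ 0 := by
      intro h0
      rw [h0, norm_zero] at h
      exact zero_ne_one h
    refine IsUnit.of_mul_eq_one ⟨(x : PadicAlgCl p)⁻¹, ?_⟩ ?_
    · rw [mem_OO, norm_inv, h, inv_one]
    · ext
      exact mul_inv_cancel₀ hx0

lemma residue_eq_zero_iff' (x : OO p) :
    IsLocalRing.residue (OO p) x = 0 ↔ ‖(x : PadicAlgCl p)‖ < 1 := by
  rw [IsLocalRing.residue_eq_zero_iff, IsLocalRing.mem_maximalIdeal, mem_nonunits_iff,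
    isUnit_OO]
  exact ⟨fun h => lt_of_le_of_ne ((mem_OO p _).1 x.2) h, fun h => h.ne⟩

lemma norm_natCast_p : ‖((p : ℕ) : PadicAlgCl p)‖ < 1 := by
  have h : ((p : ℕ) : PadicAlgCl p) = algebraMap ℚ_[p] (PadicAlgCl p) (p : ℚ_[p]) := by simp
  rw [h]
  have h2 := PadicAlgCl.norm_extends p (p : ℚ_[p])
  change ‖algebraMap ℚ_[p] (PadicAlgCl p) (p : ℚ_[p])‖ = _ at h2
  rw [h2]
  exact Padic.norm_p_lt_one

instance : CharP (Kbar p) p := by
  refine (CharP.charP_iff_prime_eq_zero (Fact.out : p.Prime)).2 ?_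
  rw [← map_natCast (IsLocalRing.residue (OO p)), residue_eq_zero_iff']
  exact norm_natCast_p p

lemma residue_surj : Function.Surjective (IsLocalRing.residue (OO p)) :=
  IsLocalRing.residue_surjective

instance : IsAlgClosed (Kbar p) := by
  refine IsAlgClosed.of_exists_root _ fun f hf hirr => ?_
  have hl : f ∈ Polynomial.lifts (IsLocalRing.residue (OO p)) := by
    rw [Polynomial.mem_lifts]
    exact Polynomial.map_surjective _ (residue_surj p) f
  obtain ⟨q, hq1, hq2, hq3⟩ := Polynomial.lifts_and_natDegree_eq_and_monic hl hf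
  have hd : f.natDegree ≠ 0 := hirr.natDegree_pos.ne'
  have hdq : (q.map (algebraMap (OO p) (PadicAlgCl p))).degree ≠ 0 := by
    rw [Polynomial.Monic.degree_map hq3]
    intro h0
    have := Polynomial.natDegree_eq_zero_iff_degree_le_zero.2 h0.le
    omega
  obtain ⟨x, hx⟩ := IsAlgClosed.exists_root _ hdq
  have hint : IsIntegral (OO p) x := by
    refine ⟨q, hq3, ?_⟩
    rw [← Polynomial.eval_map]
    exact hx
  obtain ⟨y, hy⟩ := IsIntegrallyClosed.isIntegral_iff.1 hint
  refine ⟨IsLocalRing.residue (OO p) y, ?_⟩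
  have h1 : q.eval y = 0 := by
    have h2 : algebraMap (OO p) (PadicAlgCl p) (q.eval y) = 0 := by
      rw [← Polynomial.eval_map_apply, hy]
      exact hx
    have h3 : Function.Injective (algebraMap (OO p) (PadicAlgCl p)) :=
      FaithfulSMul.algebraMap_injective _ _
    exact h3 (by rw [h2, map_zero])
  rw [← hq1, Polynomial.eval_map_apply, h1, map_zero]

/-- roots of unity of order prime to `p` inject into the residue field -/
lemma root_eq_one {m : ℕ} (hm : ¬ p ∣ m) (z : OO p) (hz : z ^ m = 1)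
    (h1 : IsLocalRing.residue (OO p) z = 1) : z = 1 := by
  have h2 : (∑ i ∈ Finset.range m, z ^ i) * (z - 1) = 0 := by
    rw [geom_sum_mul, hz, sub_self]
  rcases mul_eq_zero.1 h2 with h | h
  · exfalso
    have h3 := congrArg (IsLocalRing.residue (OO p)) h
    rw [map_sum, map_zero] at h3
    simp only [map_pow, h1, one_pow, Finset.sum_const, Finset.card_range, nsmul_eq_mul,
      mul_one] at h3
    exact hm ((CharP.cast_eq_zero_iff (Kbar p) p m).1 h3)
  · exact sub_eq_zero.1 h

/-- the inclusion of the `p`-adic integers -/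
def iotaZ : ℤ_[p] →+* OO p :=
  ((algebraMap ℚ_[p] (PadicAlgCl p)).comp (PadicInt.Coe.ringHom (p := p))).codRestrict
    (OO p).toSubring (fun x => by
      change algebraMap ℚ_[p] (PadicAlgCl p) (x : ℚ_[p]) ∈ OO p
      rw [mem_OO]
      exact (PadicAlgCl.norm_extends p (x : ℚ_[p])).trans_le x.2)

lemma coe_iotaZ (x : ℤ_[p]) :
    ((iotaZ p x : OO p) : PadicAlgCl p) = algebraMap ℚ_[p] (PadicAlgCl p) (x : ℚ_[p]) := rfl

lemma residue_iotaZ (x : ℤ_[p]) :
    IsLocalRing.residue (OO p) (iotaZ p x) = ((x.zmodRepr : ℕ) : Kbar p) := by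
  rw [← map_natCast (IsLocalRing.residue (OO p)), ← sub_eq_zero, ← map_sub,
    residue_eq_zero_iff', ← map_natCast (iotaZ p), ← map_sub, coe_iotaZ]
  refine (PadicAlgCl.norm_extends p _).trans_lt ?_
  exact PadicInt.norm_sub_zmodRepr_lt_one x

lemma exists_monic_int (x : OO p) : ∃ F : Polynomial ℤ_[p], F.Monic ∧
    F.eval₂ (iotaZ p) x = 0 := by
  have hx : ‖(x : PadicAlgCl p)‖ ≤ 1 := (mem_OO p _).1 x.2
  have hint : IsIntegral ℚ_[p] (x : PadicAlgCl p) := Algebra.IsIntegral.isIntegral _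
  have hmon := minpoly.monic hint
  have h1 : spectralValue (minpoly ℚ_[p] (x : PadicAlgCl p)) ≤ 1 := hx
  have h2 := (spectralValue_le_one_iff hmon).1 h1
  have hl : minpoly ℚ_[p] (x : PadicAlgCl p) ∈
      Polynomial.lifts (PadicInt.Coe.ringHom (p := p)) := by
    rw [Polynomial.lifts_iff_coeff_lifts]
    intro n
    exact ⟨⟨_, h2 n⟩, rfl⟩
  obtain ⟨F, hF1, hF2, hF3⟩ := Polynomial.lifts_and_natDegree_eq_and_monic hl hmon
  refine ⟨F, hF3, ?_⟩
  have h3 : (algebraMap (OO p) (PadicAlgCl p)) (F.eval₂ (iotaZ p) x) = 0 := by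
    rw [Polynomial.hom_eval₂]
    have h4 := minpoly.aeval ℚ_[p] (x : PadicAlgCl p)
    rw [← hF1, Polynomial.aeval_def, Polynomial.eval₂_map] at h4
    exact h4
  have h5 : Function.Injective (algebraMap (OO p) (PadicAlgCl p)) :=
    FaithfulSMul.algebraMap_injective _ _
  exact h5 (by rw [h3, map_zero])

lemma kbar_algebraic (a : Kbar p) : ∃ n : ℕ, 0 < n ∧ a ^ (p ^ n) = a := by
  obtain ⟨x, rfl⟩ := residue_surj p a
  obtain ⟨F, hF, hx⟩ := exists_monic_int p x
  let : Algebra (ZMod p) (Kbar p) := ZMod.algebra (Kbar p) p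
  set a := IsLocalRing.residue (OO p) x with ha
  have hcomp : (IsLocalRing.residue (OO p)).comp (iotaZ p) =
      (algebraMap (ZMod p) (Kbar p)).comp (PadicInt.toZMod (p := p)) := by
    refine RingHom.ext fun y => ?_
    rw [RingHom.comp_apply, RingHom.comp_apply, residue_iotaZ]
    have h1 : (PadicInt.toZMod (p := p) y) = ((y.zmodRepr : ℕ) : ZMod p) := by
      rw [← PadicInt.val_toZMod_eq_zmodRepr, ZMod.natCast_zmod_val]
    rw [h1, map_natCast]
  have hint : IsIntegral (ZMod p) a := by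
    refine ⟨F.map (PadicInt.toZMod (p := p)), hF.map _, ?_⟩
    rw [Polynomial.eval₂_map, ← hcomp, ha, ← Polynomial.hom_eval₂, hx, map_zero]
  have : FiniteDimensional (ZMod p) (IntermediateField.adjoin (ZMod p) {a}) :=
    IntermediateField.adjoin.finiteDimensional hint
  have : Finite (IntermediateField.adjoin (ZMod p) {a}) := Module.finite_of_finite (ZMod p)
  have : Fintype (IntermediateField.adjoin (ZMod p) {a}) := Fintype.ofFinite _
  have : CharP (IntermediateField.adjoin (ZMod p) {a}) p :=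
    charP_of_injective_algebraMap
      (algebraMap (ZMod p) (IntermediateField.adjoin (ZMod p) {a})).injective p
  obtain ⟨n, -, hn⟩ := FiniteField.card (IntermediateField.adjoin (ZMod p) {a}) p
  refine ⟨n, n.pos, ?_⟩
  have h6 := FiniteField.pow_card
    (⟨a, IntermediateField.mem_adjoin_simple_self (ZMod p) a⟩ :
      IntermediateField.adjoin (ZMod p) {a})
  rw [hn] at h6
  exact congrArg Subtype.val h6

/-- The action on the residue field is continuous (stabilisers are open). -/
lemma isOpen_stab (a : Kbar p) : IsOpen {g : Gal p | g • a = a} := by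
  obtain ⟨x, rfl⟩ := residue_surj p a
  have h1 : IsOpen (MulAction.stabilizer (Gal p) (x : PadicAlgCl p) : Set (Gal p)) :=
    stabilizer_isOpen_of_isIntegral (x : PadicAlgCl p)
  have h2 : MulAction.stabilizer (Gal p) (x : PadicAlgCl p) ≤
      MulAction.stabilizer (Gal p) (IsLocalRing.residue (OO p) x) := by
    intro g hg
    rw [MulAction.mem_stabilizer_iff] at hg ⊢
    rw [smul_residue]
    exact congrArg _ (Subtype.ext hg)
  exact Subgroup.isOpen_mono h2 h1

lemma fixed_residue (b : OO p) (hb : ∀ g : Gal p, g • b = b) :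
    (IsLocalRing.residue (OO p) b) ^ p = IsLocalRing.residue (OO p) b := by
  have h1 : ∀ g : Gal p, g (b : PadicAlgCl p) = b := fun g => congrArg Subtype.val (hb g)
  have h2 := (InfiniteGalois.mem_bot_iff_fixed (k := ℚ_[p]) (b : PadicAlgCl p)).2 h1
  obtain ⟨c, hc⟩ := IntermediateField.mem_bot.1 h2
  have hc1 : ‖c‖ ≤ 1 := by
    have h3 : ‖algebraMap ℚ_[p] (PadicAlgCl p) c‖ = ‖c‖ := PadicAlgCl.norm_extends p c
    rw [← h3, hc]
    exact (mem_OO p _).1 b.2
  obtain ⟨y, hy⟩ : ∃ y : ℤ_[p], (y : ℚ_[p]) = c := ⟨⟨c, hc1⟩, rfl⟩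
  have h4 : b = iotaZ p y := Subtype.ext (by rw [coe_iotaZ, hy]; exact hc.symm)
  rw [h4, residue_iotaZ]
  set n := y.zmodRepr
  let : Algebra (ZMod p) (Kbar p) := ZMod.algebra (Kbar p) p
  have h5 : ((n : ℕ) : Kbar p) = algebraMap (ZMod p) (Kbar p) (n : ZMod p) := by simp
  rw [h5, ← map_pow, ZMod.pow_card]

/-- Lifts of the geometric Frobenius. -/
lemma exists_geomFrob : ∃ Φ : Gal p, ∀ a : Kbar p, (Φ • a) ^ p = a := by
  let : TopologicalSpace (OO p) := ⊥
  have : DiscreteTopology (OO p) := ⟨rfl⟩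
  have : ContinuousSMul (Gal p) (OO p) := by
    rw [continuousSMul_iff_stabilizer_isOpen]
    intro x
    have h1 : IsOpen (MulAction.stabilizer (Gal p) (x : PadicAlgCl p) : Set (Gal p)) :=
      stabilizer_isOpen_of_isIntegral (x : PadicAlgCl p)
    have h2 : MulAction.stabilizer (Gal p) (x : PadicAlgCl p) ≤
        MulAction.stabilizer (Gal p) x := by
      intro g hg
      rw [MulAction.mem_stabilizer_iff] at hg ⊢
      exact Subtype.ext hg
    exact Subgroup.isOpen_mono h2 h1
  let A := FixedPoints.subring (OO p) (Gal p)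
  have : Algebra.IsInvariant A (OO p) (Gal p) := ⟨fun b hb => ⟨⟨b, hb⟩, rfl⟩⟩
  let Q : Ideal (OO p) := IsLocalRing.maximalIdeal (OO p)
  let P : Ideal A := Q.under A
  have : Q.LiesOver P := ⟨rfl⟩
  have hsurj := Ideal.Quotient.stabilizerHom_surjective_of_profinite (G := Gal p) P Q
  have hfrob : Function.Bijective (frobenius (Kbar p) p) := by
    refine ⟨(frobenius (Kbar p) p).injective, fun a => ?_⟩
    obtain ⟨n, hn, h⟩ := kbar_algebraic p a
    refine ⟨a ^ (p ^ (n - 1)), ?_⟩
    rw [frobenius_def, ← pow_mul, ← pow_succ, Nat.sub_add_cancel hn]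
    exact h
  let σ0 : (OO p ⧸ Q) ≃+* (OO p ⧸ Q) := RingEquiv.ofBijective (frobenius (Kbar p) p) hfrob
  let σ : (OO p ⧸ Q) ≃ₐ[A ⧸ P] (OO p ⧸ Q) := AlgEquiv.ofRingEquiv (f := σ0) (by
    intro r
    obtain ⟨b, rfl⟩ := Ideal.Quotient.mk_surjective r
    exact fixed_residue p b.1 b.2)
  obtain ⟨g, hg⟩ := hsurj σ
  refine ⟨(g : Gal p)⁻¹, fun a => ?_⟩
  have hkey : ∀ c : Kbar p, (g : Gal p) • c = c ^ p := by
    intro c
    obtain ⟨x, rfl⟩ := residue_surj p c
    have h1 := DFunLike.congr_fun hg (Ideal.Quotient.mk Q x)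
    exact h1
  have h2 := hkey ((g : Gal p)⁻¹ • a)
  rw [smul_inv_smul] at h2
  exact h2.symm

end

end Pool.Agent.H7.MP
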