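import Pool.Agent.H7.MP.LFA

/-!
# Cyclotomic character and Kummer cocycle of `ℚ_p`
Module LFB of MP_657af9_ag (helper7).
-/

noncomputable section

namespace Pool.Agent.H7.MP

section cyc

variable (p : ℕ) [Fact p.Prime] (l : ℕ) [Fact l.Prime]

/-- The `ℓ`-adic cyclotomic character of `Gal(ℚ̄_p/ℚ_p)`. -/
def chi : Gal p →* ℤ_[l]ˣ :=
  (cyclotomicCharacter (PadicAlgCl p) l).comp
    (MulSemiringAction.toRingAut (Gal p) (PadicAlgCl p))

lemma continuous_chi : Continuous (chi p l) :=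
  cyclotomicCharacter.continuous l ℚ_[p] (PadicAlgCl p)

lemma chi_spec (g : Gal p) (n : ℕ) (z : PadicAlgCl p) (hz : z ^ (l ^ n) = 1) :
    g z = z ^ (PadicInt.toZModPow n ((chi p l g : ℤ_[l]ˣ) : ℤ_[l])).val := by
  have : NeZero ((l : ℕ) : PadicAlgCl p) := ⟨by exact_mod_cast (Fact.out : l.Prime).ne_zero⟩
  exact cyclotomicCharacter.spec l ((MulSemiringAction.toRingAut (Gal p) (PadicAlgCl p)) g) z hz

/-- existence of a primitive root -/
lemma exists_prim (n : ℕ) : ∃ z : PadicAlgCl p, IsPrimitiveRoot z (l ^ n) := by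
  have : NeZero ((l : ℕ) : PadicAlgCl p) := ⟨by exact_mod_cast (Fact.out : l.Prime).ne_zero⟩
  exact HasEnoughRootsOfUnity.exists_primitiveRoot _ _

/-- powers of a primitive root of order `l ^ n` -/
lemma prim_pow_eq {n : ℕ} {z : PadicAlgCl p} (hz : IsPrimitiveRoot z (l ^ n)) {a b : ℕ} :
    z ^ a = z ^ b ↔ (a : ZMod (l ^ n)) = b := by
  have h0 : l ^ n ≠ 0 := pow_ne_zero _ (Fact.out : l.Prime).ne_zero
  have hu := hz.isUnit_unit h0
  have h1 : z ^ a = z ^ b ↔ (hz.isUnit h0).unit ^ a = (hz.isUnit h0).unit ^ b := by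
    rw [Units.ext_iff]
    rfl
  rw [h1, ZMod.natCast_eq_natCast_iff, pow_eq_pow_iff_modEq, ← hu.eq_orderOf]

/-- An element acting on the residue field as the `n`-th power of the geometric Frobenius
has cyclotomic character `p ^ (-n)`. -/
lemma chi_mul_pow (hl : l ≠ p) (g : Gal p) (n : ℕ) (hg : ∀ a : Kbar p, (g • a) ^ (p ^ n) = a) :
    ((chi p l g : ℤ_[l]ˣ) : ℤ_[l]) * (p : ℤ_[l]) ^ n = 1 := by
  rw [← PadicInt.ext_of_toZModPow]
  intro m
  obtain ⟨z, hz⟩ := exists_prim p l m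
  have hz1 : z ^ (l ^ m) = 1 := hz.pow_eq_one
  have hlm : l ^ m ≠ 0 := pow_ne_zero _ (Fact.out : l.Prime).ne_zero
  have hzn : ‖z‖ = 1 := by
    have h1 : ‖z‖ ^ (l ^ m) = 1 := by rw [← norm_pow, hz1, norm_one]
    exact (pow_eq_one_iff_of_nonneg (norm_nonneg z) hlm).1 h1
  have hzO : z ∈ OO p := (mem_OO p z).2 hzn.le
  set a := (PadicInt.toZModPow m ((chi p l g : ℤ_[l]ˣ) : ℤ_[l])).val with ha
  have hgz : g z = z ^ a := chi_spec p l g m z hz1
  set Z : OO p := ⟨z, hzO⟩ with hZ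
  have hgZ : g • Z = Z ^ a := by
    ext
    rw [coe_smul_OO]
    exact hgz
  have hZ1 : Z ^ (l ^ m) = 1 := by
    ext
    exact hz1
  have h1 := hg (IsLocalRing.residue (OO p) Z)
  rw [smul_residue, hgZ, ← map_pow, ← pow_mul] at h1
  have hw : Z ^ (a * p ^ n) * Z ^ (l ^ m - 1) = 1 := by
    refine root_eq_one p (m := l ^ m) ?_ _ ?_ ?_
    · intro h
      have h2 := (Fact.out : p.Prime).dvd_of_dvd_pow h
      exact hl ((Nat.prime_dvd_prime_iff_eq (Fact.out : p.Prime) (Fact.out : l.Prime)).1 h2).symm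
    · rw [mul_pow, pow_right_comm Z (a * p ^ n), pow_right_comm Z (l ^ m - 1), hZ1, one_pow,
        one_pow, one_mul]
    · rw [map_mul, h1, ← map_mul, ← pow_succ', Nat.sub_add_cancel (Nat.one_le_iff_ne_zero.2 hlm),
        hZ1, map_one]
  have hw2 : Z ^ (a * p ^ n) = Z := by
    calc Z ^ (a * p ^ n) = Z ^ (a * p ^ n) * Z ^ (l ^ m) := by rw [hZ1, mul_one]
      _ = Z ^ (a * p ^ n) * (Z ^ (l ^ m - 1) * Z) := by
        rw [← pow_succ, Nat.sub_add_cancel (Nat.one_le_iff_ne_zero.2 hlm)]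
      _ = Z := by rw [← mul_assoc, hw, one_mul]
  have hw3 : z ^ (a * p ^ n) = z ^ 1 := by
    rw [pow_one]
    exact congrArg Subtype.val hw2
  rw [prim_pow_eq p l hz] at hw3
  rw [map_mul, map_pow, map_natCast, map_one]
  push_cast at hw3
  rw [ha, ZMod.natCast_val, ZMod.cast_id] at hw3
  exact hw3

/-- Kummer data: compatible systems of `ℓ ^ n`-th roots of `1` and of `p`, and the associated
Kummer cocycle `b`, `g (p ^ (1 / ℓ ^ n)) = ζ_n ^ b(g) p ^ (1 / ℓ ^ n)`. -/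
structure Kummer where
  zeta : ℕ → PadicAlgCl p
  prim : ∀ n, IsPrimitiveRoot (zeta n) (l ^ n)
  zeta_pow : ∀ n, zeta (n + 1) ^ l = zeta n
  pi : ℕ → PadicAlgCl p
  pi_zero : pi 0 = (p : PadicAlgCl p)
  pi_pow : ∀ n, pi (n + 1) ^ l = pi n
  b : Gal p → ℤ_[l]
  hb : ∀ (g : Gal p) (n : ℕ), g (pi n) = zeta n ^ (PadicInt.toZModPow n (b g)).val * pi n

lemma step_prim (n : ℕ) (z : PadicAlgCl p) (hz : IsPrimitiveRoot z (l ^ n)) :
    ∃ z' : PadicAlgCl p, IsPrimitiveRoot z' (l ^ (n + 1)) ∧ z' ^ l = z := by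
  obtain ⟨w, hw⟩ := exists_prim p l (n + 1)
  have hl : l.Prime := Fact.out
  have hw1 : IsPrimitiveRoot (w ^ l) (l ^ n) :=
    hw.pow (pow_pos hl.pos _) (by rw [pow_succ, mul_comm])
  rcases Nat.eq_zero_or_pos n with rfl | hn
  · refine ⟨w, hw, ?_⟩
    rw [pow_zero, IsPrimitiveRoot.one_right_iff] at hz hw1
    rw [hw1, hz]
  · have : NeZero (l ^ n) := ⟨pow_ne_zero _ hl.ne_zero⟩
    obtain ⟨i, _, hic, hi⟩ := (hw1.isPrimitiveRoot_iff).1 hz
    refine ⟨w ^ i, hw.pow_of_coprime i ?_, ?_⟩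
    · exact Nat.Coprime.pow_right _ ((Nat.coprime_pow_right_iff hn _ _).1 hic)
    · rw [← pow_mul, mul_comm, pow_mul, hi]

lemma exists_zeta : ∃ zeta : ℕ → PadicAlgCl p, (∀ n, IsPrimitiveRoot (zeta n) (l ^ n)) ∧
    ∀ n, zeta (n + 1) ^ l = zeta n := by
  choose f hf1 hf2 using step_prim p l
  let s : ∀ n, {z : PadicAlgCl p // IsPrimitiveRoot z (l ^ n)} := fun n =>
    Nat.rec ⟨1, by rw [pow_zero]; exact IsPrimitiveRoot.one⟩
      (fun n z => ⟨f n z.1 z.2, hf1 n z.1 z.2⟩) n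
  exact ⟨fun n => (s n).1, fun n => (s n).2, fun n => hf2 n (s n).1 (s n).2⟩

lemma exists_pi : ∃ pi : ℕ → PadicAlgCl p, pi 0 = (p : PadicAlgCl p) ∧
    ∀ n, pi (n + 1) ^ l = pi n := by
  have h : ∀ x : PadicAlgCl p, ∃ y, y ^ l = x := fun x =>
    IsAlgClosed.exists_pow_nat_eq x (Fact.out : l.Prime).pos
  choose f hf using h
  exact ⟨fun n => Nat.rec (p : PadicAlgCl p) (fun _ z => f z) n, rfl, fun n => hf _⟩

lemma nonempty_kummer : Nonempty (Kummer p l) := by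
  obtain ⟨zeta, hz, hz'⟩ := exists_zeta p l
  obtain ⟨pi, hpi0, hpi⟩ := exists_pi p l
  have hl : l.Prime := Fact.out
  have hpp : (p : PadicAlgCl p) ≠ 0 := by exact_mod_cast (Fact.out : p.Prime).ne_zero
  have hpin : ∀ n, pi n ^ (l ^ n) = p := by
    intro n
    induction n with
    | zero => rw [pow_zero, pow_one, hpi0]
    | succ n ih => rw [pow_succ', pow_mul, hpi, ih]
  have hpi1 : ∀ n, pi n ≠ 0 := by
    intro n h
    have h1 := hpin n
    rw [h, zero_pow (pow_ne_zero _ hl.ne_zero)] at h1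
    exact hpp h1.symm
  have hex : ∀ (g : Gal p) (n : ℕ), ∃ i : ℕ, g (pi n) = zeta n ^ i * pi n := by
    intro g n
    have : NeZero (l ^ n) := ⟨pow_ne_zero _ hl.ne_zero⟩
    have h1 : (g (pi n) / pi n) ^ (l ^ n) = 1 := by
      rw [div_pow, ← map_pow, hpin, map_natCast, div_self hpp]
    obtain ⟨i, _, hi⟩ := (hz n).eq_pow_of_pow_eq_one h1
    exact ⟨i, by rw [hi, div_mul_cancel₀ _ (hpi1 n)]⟩
  choose i hi using hex
  have hcomp : ∀ (g : Gal p) (n : ℕ), (l : ℤ) ^ n ∣ (i g (n + 1) : ℤ) - (i g n : ℤ) := by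
    intro g n
    have h1 : g (pi n) = zeta n ^ (i g (n + 1)) * pi n := by
      rw [← hpi n, map_pow, hi g (n + 1), mul_pow, ← pow_mul, mul_comm (i g (n + 1)), pow_mul, hz']
    rw [hi g n] at h1
    have h2 := mul_right_cancel₀ (hpi1 n) h1
    rw [prim_pow_eq p l (hz n)] at h2
    have h3 : ((i g n : ℤ) : ZMod (l ^ n)) = ((i g (n + 1) : ℤ) : ZMod (l ^ n)) := by
      exact_mod_cast h2
    rw [ZMod.intCast_eq_intCast_iff_dvd_sub] at h3
    exact_mod_cast h3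
  refine ⟨⟨zeta, hz, hz', pi, hpi0, hpi, fun g => PadicInt.ofIntSeq _
    (PadicInt.isCauSeq_padicNorm_of_pow_dvd_sub (fun n => (i g n : ℤ)) l (hcomp g)), ?_⟩⟩
  intro g n
  rw [PadicInt.toZModPow_ofIntSeq_of_pow_dvd_sub (fun n => (i g n : ℤ)) l (hcomp g) n, hi g n]
  congr 1
  rw [prim_pow_eq p l (hz n)]
  have : NeZero (l ^ n) := ⟨pow_ne_zero _ hl.ne_zero⟩
  rw [ZMod.natCast_val, ZMod.cast_id]
  simp

variable {p l}

lemma Kummer.pi_ne_zero (K : Kummer p l) (n : ℕ) : K.pi n ≠ 0 := by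
  have hpp : (p : PadicAlgCl p) ≠ 0 := by exact_mod_cast (Fact.out : p.Prime).ne_zero
  induction n with
  | zero => rwa [K.pi_zero]
  | succ n ih =>
    intro h
    have h1 := K.pi_pow n
    rw [h, zero_pow (Fact.out : l.Prime).ne_zero] at h1
    exact ih h1.symm

lemma Kummer.mul (K : Kummer p l) (g h : Gal p) :
    K.b (g * h) = K.b g + (chi p l g : ℤ_[l]ˣ) * K.b h := by
  rw [← PadicInt.ext_of_toZModPow]
  intro n
  have hl : l.Prime := Fact.out
  have : NeZero (l ^ n) := ⟨pow_ne_zero _ hl.ne_zero⟩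
  have h1 := K.hb (g * h) n
  have h2 : (g * h) (K.pi n) = g (h (K.pi n)) := rfl
  rw [h2, K.hb h n, map_mul, map_pow, K.hb g n, chi_spec p l g n _ (K.prim n).pow_eq_one,
    ← mul_assoc, ← pow_mul, ← pow_add] at h1
  have h3 := mul_right_cancel₀ (K.pi_ne_zero n) h1
  rw [prim_pow_eq p l (K.prim n)] at h3
  push_cast at h3
  simp only [ZMod.natCast_val, ZMod.cast_id] at h3
  rw [← h3, map_add, map_mul, add_comm]

lemma Kummer.continuous (K : Kummer p l) : Continuous K.b := by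
  rw [continuous_iff_continuousAt]
  intro g0
  rw [ContinuousAt, Metric.tendsto_nhds]
  intro ε hε
  obtain ⟨n, hn⟩ := PadicInt.exists_pow_neg_lt l hε
  have hl : l.Prime := Fact.out
  have : NeZero (l ^ n) := ⟨pow_ne_zero _ hl.ne_zero⟩
  have hopen : IsOpen {g : Gal p | g0⁻¹ * g ∈ MulAction.stabilizer (Gal p) (K.pi n)} :=
    (stabilizer_isOpen_of_isIntegral (K := ℚ_[p]) (K.pi n)).preimage (continuous_const_mul _)
  have hmem : g0 ∈ {g : Gal p | g0⁻¹ * g ∈ MulAction.stabilizer (Gal p) (K.pi n)} := by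
    simp
  filter_upwards [hopen.mem_nhds hmem] with g hg
  have hg' : g (K.pi n) = g0 (K.pi n) := by
    rw [MulAction.mem_stabilizer_iff, mul_smul, inv_smul_eq_iff] at hg
    exact hg
  rw [K.hb, K.hb] at hg'
  have h3 := mul_right_cancel₀ (K.pi_ne_zero n) hg'
  rw [prim_pow_eq p l (K.prim n)] at h3
  simp only [ZMod.natCast_val, ZMod.cast_id] at h3
  refine lt_of_le_of_lt ?_ hn
  rw [dist_eq_norm, PadicInt.norm_le_pow_iff_mem_span_pow, ← PadicInt.ker_toZModPow,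
    RingHom.mem_ker, map_sub, h3, sub_self]

end cyc

end Pool.Agent.H7.MP
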