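import Pool.Agent.H99.P1.Irred

/-!
# Projective space and the projective line
Module P1 of MP_657af9_ag (helper7), filled by helper99.
-/

open CategoryTheory AlgebraicGeometry Limits TopologicalSpace Opposite

noncomputable section

namespace Pool.Agent.H7.MP

open Pool.Agent.H99.P1

/-- Projective `n`-space over `ℤ`. -/
def PZ (n : ℕ) : Scheme.{0} :=
  letI := MvPolynomial.gradedAlgebra (σ := Fin (n + 1)) (R := ℤ)
  Proj (MvPolynomial.homogeneousSubmodule (Fin (n + 1)) ℤ)

/-- Projective `n`-space over `Y`. -/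
def PS (n : ℕ) (Y : Scheme.{0}) : Scheme.{0} :=
  pullback (terminal.from (PZ n)) (terminal.from Y)

/-- The structure morphism of projective `n`-space over `Y`. -/
def PSto (n : ℕ) (Y : Scheme.{0}) : PS n Y ⟶ Y := pullback.snd _ _

/-- Projective morphisms: closed immersions into some projective space over the base. -/
def IsProj {X Y : Scheme.{0}} (f : X ⟶ Y) : Prop :=
  ∃ (n : ℕ) (i : X ⟶ PS n Y), IsClosedImmersion i ∧ i ≫ PSto n Y = f

section gen

attribute [local instance] MvPolynomial.gradedAlgebra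

variable (σ : Type) (R : Type) [CommRing R]

lemma adjoin_eq_top' : Algebra.adjoin (MvPolynomial.homogeneousSubmodule σ R 0)
    (Set.range (MvPolynomial.X : σ → MvPolynomial σ R)) = ⊤ := by
  rw [eq_top_iff]
  intro x _
  have h := MvPolynomial.adjoin_range_X (σ := σ) (R := R)
  have hx : x ∈ Algebra.adjoin R (Set.range (MvPolynomial.X : σ → MvPolynomial σ R)) := by
    rw [h]; trivial
  induction hx using Algebra.adjoin_induction with
  | mem x hx => exact Algebra.subset_adjoin hx
  | algebraMap r =>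
    exact Subalgebra.algebraMap_mem (Algebra.adjoin (MvPolynomial.homogeneousSubmodule σ R 0) _)
      (algebraMap R (MvPolynomial.homogeneousSubmodule σ R 0) r)
  | add x y _ _ hx hy => exact add_mem (hx trivial) (hy trivial)
  | mul x y _ _ hx hy => exact mul_mem (hx trivial) (hy trivial)

instance finType0' [Finite σ] : Algebra.FiniteType (MvPolynomial.homogeneousSubmodule σ R 0)
    (MvPolynomial σ R) :=
  ⟨⟨Set.Finite.toFinset (Set.finite_range MvPolynomial.X), by
    rw [Set.Finite.coe_toFinset]; exact adjoin_eq_top' σ R⟩⟩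

lemma bij_zero' : Function.Bijective
    (algebraMap R (MvPolynomial.homogeneousSubmodule σ R 0)) := by
  constructor
  · intro a b h
    have h1 : (MvPolynomial.C a : MvPolynomial σ R) = MvPolynomial.C b := congrArg Subtype.val h
    exact MvPolynomial.C_injective _ _ h1
  · rintro ⟨x, hx⟩
    have hx' : x ∈ MvPolynomial.homogeneousSubmodule σ R 0 := hx
    rw [MvPolynomial.homogeneousSubmodule_zero] at hx'
    obtain ⟨r, hr⟩ := Submodule.mem_one.1 hx'
    exact ⟨r, Subtype.ext hr⟩

/-- the structure morphism -/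
def strG : Proj (MvPolynomial.homogeneousSubmodule σ R) ⟶ Spec (.of R) :=
  Proj.toSpecZero (MvPolynomial.homogeneousSubmodule σ R) ≫
    Spec.map (CommRingCat.ofHom (algebraMap R (MvPolynomial.homogeneousSubmodule σ R 0)))

instance isIso_zero' : IsIso (Spec.map (CommRingCat.ofHom
    (algebraMap R (MvPolynomial.homogeneousSubmodule σ R 0)))) := by
  have : IsIso (CommRingCat.ofHom (algebraMap R (MvPolynomial.homogeneousSubmodule σ R 0))) :=
    (ConcreteCategory.isIso_iff_bijective _).2 (bij_zero' σ R)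
  infer_instance

instance proper_strG [Finite σ] : IsProper (strG σ R) := by
  unfold strG; infer_instance

end gen

instance isIso_term : IsIso (terminal.from (Spec (.of ℤ))) :=
  isIso_of_isTerminal specZIsTerminal terminalIsTerminal _

section
attribute [local instance] MvPolynomial.gradedAlgebra

lemma isProper_termProj (σ : Type) [Finite σ] :
    IsProper (terminal.from (Proj (MvPolynomial.homogeneousSubmodule σ ℤ))) := by
  have : terminal.from (Proj (MvPolynomial.homogeneousSubmodule σ ℤ)) =
    strG σ ℤ ≫ terminal.from (Spec (.of ℤ)) := Subsingleton.elim _ _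
  rw [this]
  infer_instance

lemma smooth_P1 : SmoothOfRelativeDimension 1 (terminal.from (P1 ℤ)) := by
  have : terminal.from (P1 ℤ) = str ℤ ≫ terminal.from (Spec (.of ℤ)) :=
    Subsingleton.elim _ _
  rw [this, MorphismProperty.cancel_right_of_respectsIso (P := @SmoothOfRelativeDimension.{0} 1)]
  infer_instance

/-- integral point -/
def ptZ : Spec (.of ℤ) ⟶ P1 ℤ :=
  Spec.map (CommRingCat.ofHom (evalCh (RingHom.id ℤ) (0 : ℤ))) ≫ ch ℤ 0

lemma irred_tensor (K : Type) [Field K] (i : Fin 2) :
    IrreducibleSpace ↥(Spec (.of (TensorProduct ℤ K (Ch ℤ i)))) := by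
  let e1 : Polynomial ℤ ≃ₐ[ℤ] Ch ℤ i := AlgEquiv.ofRingEquiv (f := chEquiv ℤ i) (fun r => by simp)
  let e2 : TensorProduct ℤ K (Polynomial ℤ) ≃ₐ[ℤ] TensorProduct ℤ K (Ch ℤ i) :=
    Algebra.TensorProduct.congr AlgEquiv.refl e1
  let e3 : Polynomial K ≃ₐ[ℤ] TensorProduct ℤ K (Polynomial ℤ) := polyEquivTensor ℤ K
  have : IsDomain (TensorProduct ℤ K (Ch ℤ i)) :=
    (e3.trans e2).symm.toMulEquiv.isDomain (Polynomial K)
  exact PrimeSpectrum.irreducibleSpace

lemma irred_piece (K : Type) [Field K] (i : Fin 2) {V : Scheme.{0}} (a : V ⟶ Spec (.of K))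
    (b : V ⟶ Spec (.of (Ch ℤ i))) (h : IsPullback a b (terminal.from _) (terminal.from _)) :
    IrreducibleSpace V := by
  have h1 : IsPullback a b (Spec.map (CommRingCat.ofHom (algebraMap ℤ K)))
      (Spec.map (CommRingCat.ofHom (algebraMap ℤ (Ch ℤ i)))) := by
    refine IsPullback.of_iso h (Iso.refl _) (Iso.refl _) (Iso.refl _)
      (asIso (terminal.from (Spec (.of ℤ)))).symm (by simp) (by simp) ?_ ?_
    · rw [← cancel_mono (terminal.from (Spec (.of ℤ)))]
      exact Subsingleton.elim _ _
    · rw [← cancel_mono (terminal.from (Spec (.of ℤ)))]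
      exact Subsingleton.elim _ _
  let e : V ≅ Spec (.of (TensorProduct ℤ K (Ch ℤ i))) :=
    h1.isoPullback ≪≫ pullbackSpecIso ℤ K (Ch ℤ i)
  have := irred_tensor K i
  have h3 : IsIrreducible (Set.univ : Set V) := by
    have h4 := (IrreducibleSpace.isIrreducible_univ
      ↥(Spec (.of (TensorProduct ℤ K (Ch ℤ i))))).image e.inv e.inv.continuous.continuousOn
    have h5 : Function.Surjective e.inv := e.inv.homeomorph.surjective
    rwa [Set.image_univ, h5.range_eq] at h4
  exact { isPreirreducible_univ := h3.2, toNonempty := ⟨h3.1.some⟩ }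

lemma irred_P1' {W : Scheme.{0}} {K : Type} [Field K] (r : W ⟶ Spec (.of K)) (q : W ⟶ P1 ℤ)
    (h : IsPullback r q (terminal.from _) (terminal.from _)) : IrreducibleSpace W := by
  let φ : Ch ℤ 0 →+* K := evalCh (algebraMap ℤ K) (1 : K)
  have hφ : φ (crd ℤ 0) ≠ 0 := by
    rw [evalCh_crd]; exact one_ne_zero
  let s : Spec (.of K) ⟶ W := h.lift (𝟙 _) (pt K φ) (Subsingleton.elim _ _)
  have hs : s ≫ q = pt K φ := h.lift_snd _ _ _
  let z : Spec (.of K) := ⟨⊥, Ideal.isPrime_bot⟩
  refine irred_over q (fun i => ?_) (s z) (fun i => ?_)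
  · refine irred_piece K i (pullback.fst q (ch ℤ i) ≫ r) (pullback.snd q (ch ℤ i)) ?_
    have h1 : IsPullback (pullback.fst q (ch ℤ i)) (pullback.snd q (ch ℤ i)) q (ch ℤ i) :=
      IsPullback.of_hasPullback _ _
    have h2 := h1.flip.paste_vert h.flip
    have e : ch ℤ i ≫ terminal.from (P1 ℤ) = terminal.from _ := Subsingleton.elim _ _
    rw [e] at h2
    exact h2.flip
  · rw [← Scheme.Hom.comp_apply, hs]
    exact pt_mem K φ hφ z i

end

instance isProper_PZ (n : ℕ) : IsProper (terminal.from (PZ n)) :=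
  isProper_termProj (Fin (n + 1))

instance isProper_PSto (n : ℕ) (Y : Scheme.{0}) : IsProper (PSto n Y) := by
  unfold PSto
  exact IsProper.isStableUnderBaseChange.of_isPullback
    (IsPullback.of_hasPullback (terminal.from (PZ n)) (terminal.from Y)) (isProper_PZ n)

lemma smooth_PZ : SmoothOfRelativeDimension 1 (terminal.from (PZ 1)) := smooth_P1

/-- the projective line is smooth of relative dimension one -/
instance smooth_PSto (Y : Scheme.{0}) : SmoothOfRelativeDimension 1 (PSto 1 Y) := by
  unfold PSto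
  exact (bcSm 1).of_isPullback (IsPullback.of_hasPullback (terminal.from (PZ 1))
    (terminal.from Y)) smooth_PZ

/-- a rational point of the projective line -/
lemma exists_point (Y : Scheme.{0}) :
    ∃ s : Y ⟶ PS 1 Y, s ≫ PSto 1 Y = 𝟙 Y ∧ IsClosedImmersion s := by
  let s : Y ⟶ PS 1 Y := pullback.lift
    ((terminal.from Y ≫ inv (terminal.from (Spec (.of ℤ))) ≫ ptZ : Y ⟶ P1 ℤ) : Y ⟶ PZ 1)
    (𝟙 Y) (Subsingleton.elim _ _)
  have hs : s ≫ PSto 1 Y = 𝟙 Y := pullback.lift_snd _ _ _
  refine ⟨s, hs, ?_⟩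
  have : IsClosedImmersion (s ≫ PSto 1 Y) := by rw [hs]; infer_instance
  exact IsClosedImmersion.of_comp s (PSto 1 Y)

/-- The projective line over a field is irreducible -/
lemma irreducible_P1 {Y : Scheme.{0}} {K : Type} [Field K] (g : Spec (CommRingCat.of K) ⟶ Y) :
    IrreducibleSpace ↥(pullback g (PSto 1 Y)) := by
  have h1 : IsPullback (pullback.fst g (PSto 1 Y)) (pullback.snd g (PSto 1 Y)) g (PSto 1 Y) :=
    IsPullback.of_hasPullback _ _
  have h2 : IsPullback (pullback.fst (terminal.from (PZ 1)) (terminal.from Y)) (PSto 1 Y)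
      (terminal.from (PZ 1)) (terminal.from Y) := IsPullback.of_hasPullback _ _
  have h3 := h1.paste_vert h2.flip
  have e : g ≫ terminal.from Y = terminal.from _ := Subsingleton.elim _ _
  rw [e] at h3
  exact irred_P1' _ _ h3

end Pool.Agent.H7.MP
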