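import Mathlib

/-! The pro-étale version of Deligne's topos `X ×_s η`. -/

open CategoryTheory AlgebraicGeometry Limits TopologicalSpace Opposite

noncomputable section

namespace Pool.Agent.H7.MP

/-- the germ at `w` of a global function -/
def gm {U : Scheme.{0}} (w : U) (s : Γ(U, ⊤)) : U.presheaf.stalk w :=
  U.presheaf.germ ⊤ w trivial s

/-- pull back of functions -/
def pb {U V : Scheme.{0}} (h : U ⟶ V) : Γ(V, ⊤) →+* Γ(U, ⊤) := h.appTop.hom

lemma gm_pb_eq {U V : Scheme.{0}} (h : U ⟶ V) (w : U) (s : Γ(V, ⊤)) :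
    gm w (pb h s) = h.stalkMap w (gm (h w) s) := by
  unfold gm pb
  erw [Scheme.Hom.germ_stalkMap_apply]
  rfl

lemma gm_pb_congr {U V : Scheme.{0}} (h : U ⟶ V) (w : U) {s t : Γ(V, ⊤)}
    (e : gm (h w) s = gm (h w) t) : gm w (pb h s) = gm w (pb h t) := by
  rw [gm_pb_eq, gm_pb_eq, e]

@[simp] lemma pb_id {U : Scheme.{0}} (s : Γ(U, ⊤)) : pb (𝟙 U) s = s := by
  simp [pb]

lemma pb_comp {U V W : Scheme.{0}} (f : U ⟶ V) (g : V ⟶ W) (s : Γ(W, ⊤)) :
    pb (f ≫ g) s = pb f (pb g s) := by
  unfold pb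
  rw [Scheme.Hom.comp_appTop]
  rfl

/-- Objects of the site of `X ×_s η`: a scheme `U` weakly étale over `X`
together with a structure `y` of `k̄`-algebra on its functions.  (`G` only matters for the
morphisms, see `Site.Hom`.) -/
structure Site (kbar : Type) [CommRing kbar] (G : Type) (X : Scheme.{0}) : Type 1 where
  U : Scheme.{0}
  f : U ⟶ X
  wet : WeaklyEtale f
  y : kbar →+* Γ(U, ⊤)

variable {kbar : Type} [CommRing kbar] {G : Type} [Group G] [TopologicalSpace G]
  [IsTopologicalGroup G] [MulSemiringAction G kbar] {X : Scheme.{0}}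

namespace Site

@[ext]
structure Hom (A B : Site kbar G X) : Type 1 where
  h : A.U ⟶ B.U
  w : h ≫ B.f = A.f
  c : C(A.U, G)
  compat : ∀ (a : kbar) (w : A.U), gm w (A.y a) = gm w (pb h (B.y (c w • a)))

instance : Category.{1} (Site kbar G X) where
  Hom A B := Hom A B
  id A := ⟨𝟙 _, Category.id_comp _, ContinuousMap.const _ 1, fun a w => by
    simp only [ContinuousMap.const_apply, one_smul]
    rw [pb_id]⟩
  comp {A B C} f g := ⟨f.h ≫ g.h, by rw [Category.assoc, g.w, f.w],
    ⟨fun w => g.c (f.h w) * f.c w, by fun_prop⟩, fun a w => by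
    rw [f.compat a w, pb_comp, gm_pb_congr f.h w (g.compat (f.c w • a) (f.h w)), smul_smul]
    rfl⟩
  id_comp f := by
    apply Hom.ext
    · exact Category.id_comp _
    · ext w
      change f.c w * 1 = _
      simp
  comp_id f := by
    apply Hom.ext
    · exact Category.comp_id _
    · ext w
      change 1 * f.c w = _
      simp
  assoc f g h := by
    apply Hom.ext
    · exact Category.assoc _ _ _
    · ext w
      change h.c _ * (g.c _ * f.c _) = (h.c _ * g.c _) * f.c _
      rw [mul_assoc]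
      rfl

@[ext]
lemma hom_ext {A B : Site kbar G X} {f g : A ⟶ B} (h1 : f.h = g.h) (h2 : ∀ w, f.c w = g.c w) :
    f = g := Hom.ext h1 (ContinuousMap.ext h2)

@[simp] lemma id_h (A : Site kbar G X) : Hom.h (𝟙 A) = 𝟙 _ := rfl
@[simp] lemma id_c (A : Site kbar G X) (w) : Hom.c (𝟙 A) w = 1 := rfl
@[simp] lemma comp_h {A B C : Site kbar G X} (f : A ⟶ B) (g : B ⟶ C) :
    (f ≫ g).h = f.h ≫ g.h := rfl
@[simp] lemma comp_c {A B C : Site kbar G X} (f : A ⟶ B) (g : B ⟶ C) (w) :
    (f ≫ g).c w = g.c (f.h w) * f.c w := rfl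

/-- The forgetful functor to schemes. -/
@[simps]
def forget : Site kbar G X ⥤ Scheme.{0} where
  obj A := A.U
  map f := f.h

/-- the restriction of `A` along a weakly étale morphism -/
abbrev restr (A : Site kbar G X) {V : Scheme.{0}} (g : V ⟶ A.U) (hg : WeaklyEtale g) :
    Site kbar G X where
  U := V
  f := g ≫ A.f
  wet := by have := A.wet; infer_instance
  y := (pb g).comp A.y

/-- the morphism `A.restr g ⟶ A` -/
def restrHom (A : Site kbar G X) {V : Scheme.{0}} (g : V ⟶ A.U) (hg : WeaklyEtale g) :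
    A.restr g hg ⟶ A where
  h := g
  w := rfl
  c := ContinuousMap.const _ 1
  compat a w := by simp only [ContinuousMap.const_apply, one_smul]; rfl

@[simp] lemma restrHom_h (A : Site kbar G X) {V : Scheme.{0}} (g : V ⟶ A.U) (hg : WeaklyEtale g) :
    (A.restrHom g hg).h = g := rfl
@[simp] lemma restrHom_c (A : Site kbar G X) {V : Scheme.{0}} (g : V ⟶ A.U) (hg : WeaklyEtale g)
    (w) : (A.restrHom g hg).c w = 1 := rfl

lemma Hom.wet {A B : Site kbar G X} (f : A ⟶ B) : WeaklyEtale f.h := by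
  have := A.wet
  have := B.wet
  have : WeaklyEtale (f.h ≫ B.f) := by rw [f.w]; infer_instance
  exact WeaklyEtale.of_comp f.h B.f

lemma compat' {A B : Site kbar G X} (f : A ⟶ B) (a : kbar) (w : A.U) :
    gm w (pb f.h (B.y a)) = gm w (A.y ((f.c w)⁻¹ • a)) := by
  rw [f.compat, smul_inv_smul]

section pullback

variable {A B C : Site kbar G X} (f : B ⟶ A) (g : C ⟶ A)

/-- The fibre product. -/
abbrev pull : Site kbar G X := B.restr (pullback.fst f.h g.h)
  (by have := g.wet; infer_instance)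

/-- first projection -/
def pullFst : pull f g ⟶ B := B.restrHom _ _

/-- second projection -/
def pullSnd : pull f g ⟶ C where
  h := pullback.snd f.h g.h
  w := by
    change pullback.snd f.h g.h ≫ C.f = pullback.fst f.h g.h ≫ B.f
    rw [← g.w, ← f.w, pullback.condition_assoc]
  c := ⟨fun w => (g.c (pullback.snd f.h g.h w))⁻¹ * f.c (pullback.fst f.h g.h w), by
    have h1 : Continuous (pullback.snd f.h g.h) := Scheme.Hom.continuous _
    have h2 : Continuous (pullback.fst f.h g.h) := Scheme.Hom.continuous _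
    exact ((g.c.continuous.comp h1).inv).mul (f.c.continuous.comp h2)⟩
  compat a w := by
    change gm w (pb _ (B.y a)) = gm w (pb _ (C.y (((g.c (pullback.snd f.h g.h w))⁻¹ * f.c (pullback.fst f.h g.h w)) • a)))
    rw [gm_pb_congr _ _ (f.compat a _), ← pb_comp, pullback.condition, pb_comp,
      gm_pb_congr _ _ (compat' g _ _), mul_smul]

lemma pull_condition : pullFst f g ≫ f = pullSnd f g ≫ g := by
  refine hom_ext pullback.condition (fun w => ?_)
  · change f.c (pullback.fst f.h g.h w) * 1 = g.c (pullback.snd f.h g.h w) *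
      ((g.c (pullback.snd f.h g.h w))⁻¹ * f.c (pullback.fst f.h g.h w))
    rw [mul_inv_cancel_left, mul_one]

end pullback

/-- universal property of the fibre product -/
def pullLift {A B C D : Site kbar G X} (f : B ⟶ A) (g : C ⟶ A) (p : D ⟶ B) (q : D ⟶ C)
    (e : p ≫ f = q ≫ g) : D ⟶ pull f g where
  h := pullback.lift p.h q.h congr(Hom.h $e)
  w := by
    change pullback.lift _ _ _ ≫ pullback.fst _ _ ≫ B.f = D.f
    rw [pullback.lift_fst_assoc, p.w]
  c := p.c
  compat a w := by
    rw [p.compat]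
    change _ = gm w (pb _ (pb _ (B.y _)))
    rw [← pb_comp, pullback.lift_fst]

lemma pullLift_fst {A B C D : Site kbar G X} (f : B ⟶ A) (g : C ⟶ A) (p : D ⟶ B) (q : D ⟶ C)
    (e : p ≫ f = q ≫ g) : pullLift f g p q e ≫ pullFst f g = p := by
  refine hom_ext (pullback.lift_fst _ _ _) (fun w => ?_)
  · change 1 * p.c w = _
    rw [one_mul]

lemma pullLift_snd {A B C D : Site kbar G X} (f : B ⟶ A) (g : C ⟶ A) (p : D ⟶ B) (q : D ⟶ C)
    (e : p ≫ f = q ≫ g) : pullLift f g p q e ≫ pullSnd f g = q := by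
  refine hom_ext (pullback.lift_snd _ _ _) (fun w => ?_)
  · have h1 : f.c (p.h w) * p.c w = g.c (q.h w) * q.c w := congr(Hom.c $e w)
    have h2 : pullback.fst f.h g.h (pullback.lift p.h q.h congr(Hom.h $e) w) = p.h w := by
      rw [← Scheme.Hom.comp_apply, pullback.lift_fst]
    have h3 : pullback.snd f.h g.h (pullback.lift p.h q.h congr(Hom.h $e) w) = q.h w := by
      rw [← Scheme.Hom.comp_apply, pullback.lift_snd]
    change ((g.c (pullback.snd f.h g.h (pullback.lift p.h q.h congr(Hom.h $e) w)))⁻¹ *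
      f.c (pullback.fst f.h g.h (pullback.lift p.h q.h congr(Hom.h $e) w))) * p.c w = _
    rw [h2, h3, mul_assoc, h1, inv_mul_cancel_left]

end Site

end Pool.Agent.H7.MP
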