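import Pool.Agent.H7.MP.Site

open CategoryTheory AlgebraicGeometry Limits TopologicalSpace Opposite

noncomputable section

namespace Pool.Agent.H7.MP

namespace Site

variable (kbar : Type) [CommRing kbar] (G : Type) [Group G] [TopologicalSpace G]
  [IsTopologicalGroup G] [MulSemiringAction G kbar] (X : Scheme.{0})

/-- The pro-étale topology on the site of `X ×_s η`: a sieve is covering if the underlying
morphisms of schemes generate a covering sieve for the pro-étale topology. -/
def top : GrothendieckTopology (Site kbar G X) where
  sieves A := {S | S.functorPushforward (forget (kbar := kbar) (G := G) (X := X)) ∈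
    Scheme.proetaleTopology ((forget (kbar := kbar) (G := G) (X := X)).obj A)}
  top_mem' A := by
    change Sieve.functorPushforward (forget (kbar := kbar) (G := G) (X := X)) ⊤ ∈
      Scheme.proetaleTopology ((forget (kbar := kbar) (G := G) (X := X)).obj A)
    rw [Sieve.functorPushforward_top]
    exact Scheme.proetaleTopology.top_mem _
  pullback_stable' A B S f hS := by
    have h1 := Scheme.proetaleTopology.pullback_stable
      ((forget (kbar := kbar) (G := G) (X := X)).map f) hS
    refine Scheme.proetaleTopology.superset_covering ?_ h1
    rintro V k ⟨C, h, l, hh, e⟩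
    refine ⟨pull f h, pullFst f h, pullback.lift k l e, ?_, ?_⟩
    · change S _
      rw [pull_condition]
      exact S.downward_closed hh _
    · exact (pullback.lift_fst _ _ _).symm
  transitive' A S hS R hR := by
    refine Scheme.proetaleTopology.transitive hS _ ?_
    rintro V k ⟨C, h, l, hh, rfl⟩
    have h1 := Scheme.proetaleTopology.pullback_stable l (hR hh)
    refine Scheme.proetaleTopology.superset_covering ?_ h1
    rintro W m ⟨D, g, n, hg, e⟩
    refine ⟨D, g ≫ h, n, hg, ?_⟩
    rw [Functor.map_comp, ← Category.assoc, ← Category.assoc, e]

end Site

end Pool.Agent.H7.MP
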